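import Mathlib

/-!
# Definable relations of `(ℕ; S, ⊥)`: definitions
-/

set_option autoImplicit false

namespace Pool.Agent.DSC

/-- `x, y > K`, and `x ± j`, `y ± j` have the same prime divisors for `j ≤ K`. -/
def Twn (K x y : ℕ) : Prop :=
  K < x ∧ K < y ∧ ∀ j, j ≤ K → (x + j).primeFactors = (y + j).primeFactors ∧
    (x - j).primeFactors = (y - j).primeFactors

/-- The tuples `x`, `y` are locally indistinguishable with radius `K`: corresponding entries are equal
or twins, and corresponding differences are equal or both larger than `K`. -/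
def Eqv (K : ℕ) {ι : Type} (x y : ι → ℕ) : Prop :=
  (∀ i, x i = y i ∨ Twn K (x i) (y i)) ∧ ∀ i j t, t ≤ K → (x i + t = x j ↔ y i + t = y j)

end Pool.Agent.DSC
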