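import Mathlib

/-!
# Definable sets of `(ℕ; S, ⊥)`: the Ehrenfeucht game

Two numbers with the same prime divisors at corresponding places of large windows around them satisfy
the same formulas with a bounded number of quantifiers (exchange of the two windows).
-/

set_option autoImplicit false

namespace Pool.Agent.DSC

open FirstOrder FirstOrder.Language

/-- `x, y > K`, and `x ± j`, `y ± j` have the same prime divisors for `j ≤ K`. -/
def Twin (K x y : ℕ) : Prop :=
  K < x ∧ K < y ∧ ∀ j, j ≤ K → (x + j).primeFactors = (y + j).primeFactors ∧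
    (x - j).primeFactors = (y - j).primeFactors

theorem Twin.symm {K x y : ℕ} (h : Twin K x y) : Twin K y x :=
  ⟨h.2.1, h.1, fun j hj => ⟨(h.2.2 j hj).1.symm, (h.2.2 j hj).2.symm⟩⟩

/-- `u` has distance at most `l` from `x` -/
def Nr (x l u : ℕ) : Prop := x ≤ u + l ∧ u ≤ x + l

instance (x l u : ℕ) : Decidable (Nr x l u) := inferInstanceAs (Decidable (_ ∧ _))

theorem dvd_of_pf {a b : ℕ} (ha : 0 < a) (hb : 0 < b) (h : a.primeFactors = b.primeFactors)
    {p : ℕ} (hp : p.Prime) : p ∣ a ↔ p ∣ b := by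
  have h1 : p ∈ a.primeFactors ↔ p ∈ b.primeFactors := by rw [h]
  rw [Nat.mem_primeFactors, Nat.mem_primeFactors] at h1
  constructor
  · intro h2
    exact (h1.1 ⟨hp, h2, by omega⟩).2.1
  · intro h2
    exact (h1.2 ⟨hp, h2, by omega⟩).2.1

/-- corresponding places of the windows have the same prime divisors -/
theorem Twin.dvd {K x y : ℕ} (h : Twin K x y) {u : ℕ} (hu : Nr x K u) {p : ℕ} (hp : p.Prime) :
    p ∣ u ↔ p ∣ u + y - x := by
  obtain ⟨h1, h2, h3⟩ := h
  obtain ⟨h4, h5⟩ := hu
  rcases Nat.le_total x u with hxu | hxu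
  · have h6 := (h3 (u - x) (by omega)).1
    have e1 : x + (u - x) = u := by omega
    have e2 : y + (u - x) = u + y - x := by omega
    rw [e1, e2] at h6
    exact dvd_of_pf (by omega) (by omega) h6 hp
  · have h6 := (h3 (x - u) (by omega)).2
    have e1 : x - (x - u) = u := by omega
    have e2 : y - (x - u) = u + y - x := by omega
    rw [e1, e2] at h6
    exact dvd_of_pf (by omega) (by omega) h6 hp

/-- different twins are far from each other -/
theorem Twin.far {K x y : ℕ} (h : Twin K x y) (hxy : x < y) : x + 2 * K < y := by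
  by_contra hc
  push Not at hc
  have hK := h.1
  obtain ⟨d, hd⟩ : ∃ d, d = y - x := ⟨_, rfl⟩
  have hd0 : 0 < d := by omega
  obtain ⟨t, ht1, ht2⟩ : ∃ t, t < d ∧ d ∣ (x - K + t) - 1 := by
    obtain ⟨s, hs⟩ : ∃ s, s = (x - K - 1) % d := ⟨_, rfl⟩
    have hs1 : s < d := by rw [hs]; exact Nat.mod_lt _ hd0
    have hs2 := Nat.mod_add_div (x - K - 1) d
    rw [← hs] at hs2
    by_cases h0 : s = 0
    · refine ⟨0, hd0, ⟨(x - K - 1) / d, ?_⟩⟩
      omega
    · refine ⟨d - s, by omega, ⟨(x - K - 1) / d + 1, ?_⟩⟩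
      rw [Nat.mul_add, Nat.mul_one]
      omega
  obtain ⟨u, hu⟩ : ∃ u, u = x - K + t := ⟨_, rfl⟩
  have hN : Nr x K u := ⟨by omega, by omega⟩
  obtain ⟨p, hp, hp1⟩ := Nat.exists_prime_and_dvd (n := u + d) (by omega)
  have e1 : u + y - x = u + d := by omega
  have h1 := h.dvd hN hp
  rw [e1] at h1
  have h2 : p ∣ u := h1.2 hp1
  have h3 : p ∣ d := (Nat.dvd_add_right h2).1 hp1
  rw [← hu] at ht2
  have h4 : p ∣ u - 1 := h3.trans ht2
  have h5 : p ∣ 1 := by
    have e2 : u = (u - 1) + 1 := by omega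
    rw [e2] at h2
    exact (Nat.dvd_add_right h4).1 h2
  exact hp.one_lt.ne' (Nat.dvd_one.1 h5)

/-- exchange of the windows of radius `l` around `x` and `y` -/
def sw (x y l u : ℕ) : ℕ :=
  if Nr x l u then u + y - x else if Nr y l u then u + x - y else u

/-- no distance in `(l, l + w]` from `x` or `y` -/
def Fr (x y l w u : ℕ) : Prop := (Nr x (l + w) u → Nr x l u) ∧ (Nr y (l + w) u → Nr y l u)

/-- the standing assumptions -/
structure Std (x y K : ℕ) : Prop where
  tw : Twin K x y
  far : x + 2 * K < y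

theorem sw_sw {x y K l : ℕ} (h : Std x y K) (hl : l ≤ K) (u : ℕ) : sw x y l (sw x y l u) = u := by
  have h1 := h.tw.1
  have h2 := h.far
  unfold sw Nr
  split_ifs <;> omega

theorem fr_sw {x y K l w : ℕ} (h : Std x y K) (hl : l + w ≤ K) {u : ℕ} (hu : Fr x y l w u) :
    Fr x y l w (sw x y l u) := by
  have h1 := h.tw.1
  have h2 := h.far
  unfold Fr sw Nr at *
  split_ifs <;> constructor <;> omega

theorem sw_mono {x y l l' w u : ℕ} (h1 : l ≤ l') (h2 : l' ≤ l + w) (hu : Fr x y l w u) :
    sw x y l' u = sw x y l u := by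
  unfold Fr sw Nr at *
  split_ifs <;> omega

theorem ex_rad {x y K l w w' : ℕ} (h : Std x y K) (hw : 2 * w' ≤ w) (hl : l + w ≤ K) (z : ℕ) :
    ∃ l', l ≤ l' ∧ l' ≤ l + w' ∧ Fr x y l' w' z := by
  have h1 := h.tw.1
  have h2 := h.far
  by_cases hx : Nr x (l + w') z
  · refine ⟨max l ((z - x) + (x - z)), le_max_left _ _, ?_, ?_⟩
    · unfold Nr at hx
      omega
    · unfold Fr Nr at *
      omega
  · by_cases hy : Nr y (l + w') z
    · refine ⟨max l ((z - y) + (y - z)), le_max_left _ _, ?_, ?_⟩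
      · unfold Nr at hy
        omega
      · unfold Fr Nr at *
        omega
    · refine ⟨l, le_rfl, by omega, fun h3 => absurd h3 hx, fun h3 => absurd h3 hy⟩

theorem sw_dvd {x y K l c : ℕ} (h : Std x y K) (hl : l + c ≤ K) {u : ℕ} {p : ℕ} (hp : p.Prime) :
    p ∣ u + c ↔ p ∣ sw x y l u + c := by
  have h1 := h.tw.1
  have h2 := h.far
  unfold sw
  split_ifs with hx hy
  · have h3 := h.tw.dvd (u := u + c) (by unfold Nr at *; omega) hp
    have e : u + c + y - x = u + y - x + c := by unfold Nr at hx; omega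
    rw [e] at h3
    exact h3
  · have h3 := h.tw.symm.dvd (u := u + c) (by unfold Nr at *; omega) hp
    have e : u + c + x - y = u + x - y + c := by unfold Nr at hy; omega
    rw [e] at h3
    exact h3
  · exact Iff.rfl

theorem cop_congr {a b a' b' : ℕ} (h1 : ∀ p : ℕ, p.Prime → (p ∣ a ↔ p ∣ a'))
    (h2 : ∀ p : ℕ, p.Prime → (p ∣ b ↔ p ∣ b')) : Nat.Coprime a b ↔ Nat.Coprime a' b' := by
  rw [← not_iff_not, Nat.Prime.not_coprime_iff_dvd, Nat.Prime.not_coprime_iff_dvd]
  constructor
  · rintro ⟨p, hp, h3, h4⟩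
    exact ⟨p, hp, (h1 p hp).1 h3, (h2 p hp).1 h4⟩
  · rintro ⟨p, hp, h3, h4⟩
    exact ⟨p, hp, (h1 p hp).2 h3, (h2 p hp).2 h4⟩

/-- The language has only unary function symbols, all interpreted by the successor, and only binary
relation symbols, all interpreted by coprimality. -/
structure Pure (L : FirstOrder.Language.{0, 0}) [L.Structure ℕ] : Prop where
  f1 : ∀ (n : ℕ) (_ : L.Functions n), n = 1
  r2 : ∀ (n : ℕ) (_ : L.Relations n), n = 2
  hs : ∀ (f : L.Functions 1) (v : Fin 1 → ℕ), Structure.funMap f v = v 0 + 1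
  hr : ∀ (r : L.Relations 2) (v : Fin 2 → ℕ), Structure.RelMap r v ↔ Nat.Coprime (v 0) (v 1)

variable {L : FirstOrder.Language.{0, 0}} [L.Structure ℕ]

theorem term_form (hP : Pure L) {α : Type} (t : L.Term α) :
    ∃ (i : α) (c : ℕ), ∀ v : α → ℕ, t.realize v = v i + c := by
  induction t with
  | var i => exact ⟨i, 0, fun v => rfl⟩
  | @func n f ts ih =>
    obtain rfl := hP.f1 n f
    obtain ⟨i, c, h⟩ := ih 0
    refine ⟨i, c + 1, fun v => ?_⟩
    rw [Term.realize_func, hP.hs, h]
    rfl

theorem efg (hP : Pure L) {α : Type} {n : ℕ} (φ : L.BoundedFormula α n) :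
    ∃ c : ℕ, ∀ x y K l w : ℕ, Std x y K → c ≤ w → l + w + c ≤ K →
      ∀ (v : α → ℕ) (xs : Fin n → ℕ), (∀ i, Fr x y l w (v i)) → (∀ i, Fr x y l w (xs i)) →
        (φ.Realize v xs ↔ φ.Realize (fun i => sw x y l (v i)) (fun i => sw x y l (xs i))) := by
  induction φ with
  | falsum => exact ⟨0, fun x y K l w _ _ _ v xs _ _ => Iff.rfl⟩
  | equal t₁ t₂ =>
    obtain ⟨i, a, h1⟩ := term_form hP t₁
    obtain ⟨j, b, h2⟩ := term_form hP t₂
    refine ⟨a + b, fun x y K l w hS hw hl v xs hv hxs => ?_⟩
    have h3 := hS.tw.1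
    have h4 := hS.far
    have hF : ∀ k, Fr x y l w (Sum.elim v xs k) := by
      rintro (k | k)
      · exact hv k
      · exact hxs k
    have hE : (Sum.elim (fun i => sw x y l (v i)) fun i => sw x y l (xs i)) =
        fun k => sw x y l (Sum.elim v xs k) := by
      funext k
      rcases k with k | k <;> rfl
    show t₁.realize (Sum.elim v xs) = t₂.realize (Sum.elim v xs) ↔
      t₁.realize (Sum.elim (fun i => sw x y l (v i)) fun i => sw x y l (xs i)) =
        t₂.realize (Sum.elim (fun i => sw x y l (v i)) fun i => sw x y l (xs i))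
    rw [hE, h1, h2, h1, h2]
    have f1 := hF i
    have f2 := hF j
    generalize Sum.elim v xs i = u1 at *
    generalize Sum.elim v xs j = u2 at *
    unfold Fr sw Nr at *
    split_ifs <;> omega
  | @rel n m R ts =>
    obtain rfl := hP.r2 m R
    obtain ⟨i, a, h1⟩ := term_form hP (ts 0)
    obtain ⟨j, b, h2⟩ := term_form hP (ts 1)
    refine ⟨a + b, fun x y K l w hS hw hl v xs hv hxs => ?_⟩
    have hE : (Sum.elim (fun i => sw x y l (v i)) fun i => sw x y l (xs i)) =
        fun k => sw x y l (Sum.elim v xs k) := by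
      funext k
      rcases k with k | k <;> rfl
    show Structure.RelMap R (fun i => (ts i).realize (Sum.elim v xs)) ↔
      Structure.RelMap R (fun k => (ts k).realize
        (Sum.elim (fun i => sw x y l (v i)) fun i => sw x y l (xs i)))
    rw [hP.hr, hP.hr, hE, h1, h2, h1, h2]
    exact cop_congr (fun p hp => sw_dvd hS (by omega) hp) (fun p hp => sw_dvd hS (by omega) hp)
  | imp φ₁ φ₂ ih₁ ih₂ =>
    obtain ⟨c₁, h₁⟩ := ih₁
    obtain ⟨c₂, h₂⟩ := ih₂
    refine ⟨c₁ + c₂, fun x y K l w hS hw hl v xs hv hxs => ?_⟩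
    rw [BoundedFormula.realize_imp, BoundedFormula.realize_imp,
      h₁ x y K l w hS (by omega) (by omega) v xs hv hxs,
      h₂ x y K l w hS (by omega) (by omega) v xs hv hxs]
  | @all n φ ih =>
    obtain ⟨c, hc⟩ := ih
    refine ⟨2 * c + 1, fun x y K l w hS hw hl v xs hv hxs => ?_⟩
    rw [BoundedFormula.realize_all, BoundedFormula.realize_all]
    have key : ∀ z : ℕ, ∃ l', l' ≤ K ∧
        (φ.Realize v (Fin.snoc xs z) ↔ φ.Realize (fun i => sw x y l (v i))
          (Fin.snoc (fun i => sw x y l (xs i)) (sw x y l' z))) ∧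
        (φ.Realize v (Fin.snoc xs (sw x y l' z)) ↔ φ.Realize (fun i => sw x y l (v i))
          (Fin.snoc (fun i => sw x y l (xs i)) z)) := by
      intro z
      obtain ⟨l', hl1, hl2, hz⟩ := ex_rad (l := l) (w := w) (w' := w / 2) hS (by omega) (by omega) z
      have hv' : ∀ i, Fr x y l' (w / 2) (v i) := by
        intro i
        have := hv i
        unfold Fr Nr at *
        omega
      have hxs' : ∀ i, Fr x y l' (w / 2) (xs i) := by
        intro i
        have := hxs i
        unfold Fr Nr at *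
        omega
      have ev : (fun i => sw x y l' (v i)) = fun i => sw x y l (v i) := by
        funext i
        exact sw_mono hl1 (w := w) (by omega) (hv i)
      have hsn : ∀ z', (fun i : Fin (n + 1) => sw x y l' (Fin.snoc (α := fun _ => ℕ) xs z' i)) =
          Fin.snoc (α := fun _ => ℕ) (fun i => sw x y l (xs i)) (sw x y l' z') := by
        intro z'
        funext i
        refine Fin.lastCases ?_ (fun i => ?_) i
        · rw [Fin.snoc_last, Fin.snoc_last]
        · rw [Fin.snoc_castSucc, Fin.snoc_castSucc]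
          exact sw_mono hl1 (w := w) (by omega) (hxs i)
      have hfr : ∀ z', Fr x y l' (w / 2) z' →
          ∀ i : Fin (n + 1), Fr x y l' (w / 2) (Fin.snoc (α := fun _ => ℕ) xs z' i) := by
        intro z' hz' i
        refine Fin.lastCases ?_ (fun i => ?_) i
        · rw [Fin.snoc_last]
          exact hz'
        · rw [Fin.snoc_castSucc]
          exact hxs' i
      refine ⟨l', by omega, ?_, ?_⟩
      · have h1 := hc x y K l' (w / 2) hS (by omega) (by omega) v (Fin.snoc xs z) hv' (hfr z hz)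
        rw [ev, hsn] at h1
        exact h1
      · have h1 := hc x y K l' (w / 2) hS (by omega) (by omega) v (Fin.snoc xs (sw x y l' z)) hv'
          (hfr _ (fr_sw hS (by omega) hz))
        rw [ev, hsn, sw_sw hS (by omega)] at h1
        exact h1
    constructor
    · intro h z
      obtain ⟨l', _, _, h2⟩ := key z
      exact h2.1 (h _)
    · intro h z
      obtain ⟨l', _, h1, _⟩ := key z
      exact h1.2 (h _)

/-- A set definable without parameters in `(ℕ; S, ⊥)` is a union of classes of twins. -/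
theorem formula_twin (hP : Pure L) (φ : L.Formula (Fin 1)) :
    ∃ K : ℕ, ∀ x y : ℕ, Twin K x y → φ.Realize (fun _ => x) → φ.Realize (fun _ => y) := by
  obtain ⟨c, hc⟩ := efg hP φ
  refine ⟨2 * c, fun x y hT hx => ?_⟩
  have q : ∀ (z : ℕ) (a : Fin 0 → ℕ), φ.Realize (fun _ : Fin 1 => z) ↔
      BoundedFormula.Realize φ (fun _ : Fin 1 => z) a := by
    intro z a
    unfold Formula.Realize
    exact iff_of_eq (congrArg _ (Subsingleton.elim _ _))
  have key : ∀ x y : ℕ, Twin (2 * c) x y → x < y →
      (φ.Realize (fun _ : Fin 1 => x) ↔ φ.Realize (fun _ : Fin 1 => y)) := by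
    intro x y hT hxy
    have hS : Std x y (2 * c) := ⟨hT, hT.far hxy⟩
    have h1 := hT.1
    have h2 := hT.far hxy
    have h3 := hc x y (2 * c) 0 c hS le_rfl (by omega) (fun _ => x) default
      (fun _ => by unfold Fr Nr; omega) (fun i => i.elim0)
    have e1 : sw x y 0 x = y := by
      unfold sw Nr
      split_ifs <;> omega
    simp only [e1] at h3
    rw [q x default, q y (fun i => sw x y 0 ((default : Fin 0 → ℕ) i))]
    exact h3
  rcases lt_trichotomy x y with h | h | h
  · exact (key x y hT h).1 hx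
  · rwa [h] at hx
  · exact (key y x hT.symm h).2 hx

end Pool.Agent.DSC
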