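import Pool.Agent.Sq42_Def.ArithSets
import Pool.Agent.Helper60_DSC.Efg

/-!
# Definable sets of `(ℕ; S, ⊥)`: they are arithmetical
-/

set_option autoImplicit false

namespace Pool.Agent.DSC

open FirstOrder FirstOrder.Language Pool.Agent.SqDef

theorem D_ren {L : FirstOrder.Language.{0, 0}} [L.Structure ℕ] {P : (ℕ → ℕ) → Prop} (h : D L P)
    (g : ℕ → ℕ) : D L (fun v => P (fun n => v (g n))) := by
  obtain ⟨φ, hφ⟩ := h
  refine ⟨φ.relabel g, fun v => ?_⟩
  rw [Formula.realize_relabel, hφ]
  rfl

theorem a_add : D arithLang (fun v => v 2 = v 0 + v 1) :=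
  ⟨Term.equal (Term.var 2) (Term.func ArithFunc.add ![Term.var 0, Term.var 1]), fun v => by
    rw [Formula.realize_equal]; rfl⟩

theorem a_mul : D arithLang (fun v => v 2 = v 0 * v 1) :=
  ⟨Term.equal (Term.var 2) (Term.func ArithFunc.mul ![Term.var 0, Term.var 1]), fun v => by
    rw [Formula.realize_equal]; rfl⟩

theorem a_one : D arithLang (fun v => v 0 = 1) := by
  have h1 : D arithLang (fun v => v 0 = v 0 * v 0) := D_ren a_mul (fun _ => 0)
  have h2 : D arithLang (fun v => v 0 = v 0 + v 0) := D_ren a_add (fun _ => 0)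
  refine (h1.and h2.not).congr fun v => ?_
  constructor
  · rintro ⟨h3, h4⟩
    have h5 : v 0 ≠ 0 := by omega
    have h6 : v 0 * 1 = v 0 * v 0 := by omega
    exact (Nat.eq_of_mul_eq_mul_left (by omega) h6).symm
  · intro h3
    rw [h3]
    exact ⟨rfl, by norm_num⟩

theorem a_shift (a : ℕ) : D arithLang (fun v => v 1 = v 0 + a) := by
  induction a with
  | zero => exact (D.eq 1 0).congr fun v => Iff.rfl
  | succ a ih =>
    have h1 : D arithLang (fun v => v 3 = 1) := D_ren a_one (fun _ => 3)
    have h2 : D arithLang (fun v => v 2 = v 0 + a) :=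
      D_ren ih (fun n => if n = 0 then 0 else 2)
    have h3 : D arithLang (fun v => v 1 = v 2 + v 3) :=
      D_ren a_add (fun n => if n = 0 then 2 else if n = 1 then 3 else 1)
    refine (((h1.and (h2.and h3)).ex 3).ex 2).congr fun v => ?_
    constructor
    · rintro ⟨x, y, h4, h5, h6⟩
      simp at h4 h5 h6
      omega
    · intro h4
      refine ⟨v 0 + a, 1, ?_, ?_, ?_⟩
      · simp
      · simp
      · simp
        omega

theorem a_eq (a b : ℕ) : D arithLang (fun v => v 0 + a = v 1 + b) := by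
  have h1 : D arithLang (fun v => v 2 = v 0 + a) :=
    D_ren (a_shift a) (fun n => if n = 0 then 0 else 2)
  have h2 : D arithLang (fun v => v 2 = v 1 + b) :=
    D_ren (a_shift b) (fun n => if n = 0 then 1 else 2)
  refine ((h1.and h2).ex 2).congr fun v => ?_
  constructor
  · rintro ⟨x, h4, h5⟩
    simp at h4 h5
    omega
  · intro h4
    refine ⟨v 0 + a, ?_, ?_⟩
    · simp
    · simp
      omega

theorem a_dvd : D arithLang (fun v => v 0 ∣ v 1) := by
  have h1 : D arithLang (fun v => v 1 = v 0 * v 2) :=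
    D_ren a_mul (fun n => if n = 0 then 0 else if n = 1 then 2 else 1)
  refine (h1.ex 2).congr fun v => ?_
  constructor
  · rintro ⟨x, h4⟩
    simp at h4
    exact ⟨x, h4⟩
  · rintro ⟨x, h4⟩
    exact ⟨x, by simpa using h4⟩

theorem a_cop : D arithLang (fun v => Nat.Coprime (v 0) (v 1)) := by
  have h1 : D arithLang (fun v => v 2 ∣ v 0) := D_ren a_dvd (fun n => if n = 0 then 2 else 0)
  have h2 : D arithLang (fun v => v 2 ∣ v 1) := D_ren a_dvd (fun n => if n = 0 then 2 else 1)
  have h3 : D arithLang (fun v => v 2 = 1) := D_ren a_one (fun _ => 2)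
  refine ((h1.imp (h2.imp h3)).all 2).congr fun v => ?_
  constructor
  · intro h4
    have h5 := h4 (Nat.gcd (v 0) (v 1))
    simp at h5
    exact h5 (Nat.gcd_dvd_left _ _) (Nat.gcd_dvd_right _ _)
  · intro h4 d h5 h6
    simp at h5 h6
    simp only [Function.update_self]
    exact Nat.eq_one_of_dvd_coprimes h4 h5 h6

theorem a_cops (a b : ℕ) : D arithLang (fun v => Nat.Coprime (v 0 + a) (v 1 + b)) := by
  have h1 : D arithLang (fun v => v 2 = v 0 + a) :=
    D_ren (a_shift a) (fun n => if n = 0 then 0 else 2)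
  have h2 : D arithLang (fun v => v 3 = v 1 + b) :=
    D_ren (a_shift b) (fun n => if n = 0 then 1 else 3)
  have h3 : D arithLang (fun v => Nat.Coprime (v 2) (v 3)) :=
    D_ren a_cop (fun n => if n = 0 then 2 else 3)
  refine (((h1.and (h2.and h3)).ex 3).ex 2).congr fun v => ?_
  constructor
  · rintro ⟨x, y, h4, h5, h6⟩
    simp at h4 h5 h6
    rwa [h4, h5] at h6
  · intro h4
    refine ⟨v 0 + a, v 1 + b, ?_, ?_, ?_⟩
    · simp
    · simp
    · simpa using h4

variable {L : FirstOrder.Language.{0, 0}} [L.Structure ℕ]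

theorem trans_ari (hP : Pure L) {n : ℕ} (φ : L.BoundedFormula (Fin 1) n) :
    ∀ (i₀ : ℕ) (g : Fin n → ℕ),
      D arithLang (fun v => φ.Realize (fun _ => v i₀) (fun i => v (g i))) := by
  induction φ with
  | falsum =>
    intro i₀ g
    exact (D.const False).congr fun v => Iff.rfl
  | @equal n t₁ t₂ =>
    intro i₀ g
    obtain ⟨i, a, h1⟩ := term_form hP t₁
    obtain ⟨j, b, h2⟩ := term_form hP t₂
    let e : Fin 1 ⊕ Fin n → ℕ := Sum.elim (fun _ => i₀) g
    refine (D_ren (a_eq a b) (fun m => if m = 0 then e i else e j)).congr fun v => ?_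
    have hE : (Sum.elim (fun _ : Fin 1 => v i₀) fun i => v (g i)) = fun k => v (e k) := by
      funext k
      rcases k with k | k <;> rfl
    show _ ↔ t₁.realize (Sum.elim (fun _ : Fin 1 => v i₀) fun i => v (g i)) =
      t₂.realize (Sum.elim (fun _ : Fin 1 => v i₀) fun i => v (g i))
    rw [hE, h1, h2]
    simp
  | @rel n m R ts =>
    intro i₀ g
    obtain rfl := hP.r2 m R
    obtain ⟨i, a, h1⟩ := term_form hP (ts 0)
    obtain ⟨j, b, h2⟩ := term_form hP (ts 1)
    let e : Fin 1 ⊕ Fin n → ℕ := Sum.elim (fun _ => i₀) g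
    refine (D_ren (a_cops a b) (fun m => if m = 0 then e i else e j)).congr fun v => ?_
    have hE : (Sum.elim (fun _ : Fin 1 => v i₀) fun i => v (g i)) = fun k => v (e k) := by
      funext k
      rcases k with k | k <;> rfl
    show _ ↔ Structure.RelMap R (fun k => (ts k).realize
      (Sum.elim (fun _ : Fin 1 => v i₀) fun i => v (g i)))
    rw [hP.hr, hE, h1, h2]
    simp
  | imp φ₁ φ₂ ih₁ ih₂ =>
    intro i₀ g
    refine ((ih₁ i₀ g).imp (ih₂ i₀ g)).congr fun v => ?_
    rw [BoundedFormula.realize_imp]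
  | @all n φ ih =>
    intro i₀ g
    obtain ⟨k, hk⟩ := Infinite.exists_notMem_finset (insert i₀ (Finset.univ.image g))
    rw [Finset.mem_insert, Finset.mem_image] at hk
    push Not at hk
    obtain ⟨hk1, hk2⟩ := hk
    refine ((ih i₀ (Fin.snoc (α := fun _ => ℕ) g k)).all k).congr fun v => ?_
    rw [BoundedFormula.realize_all]
    refine forall_congr' fun x => ?_
    have e1 : (fun _ : Fin 1 => Function.update v k x i₀) = fun _ => v i₀ := by
      funext _
      exact Function.update_of_ne (Ne.symm hk1) _ _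
    have e2 : (fun i : Fin (n + 1) => Function.update v k x (Fin.snoc (α := fun _ => ℕ) g k i)) =
        Fin.snoc (α := fun _ => ℕ) (fun i => v (g i)) x := by
      funext i
      refine Fin.lastCases ?_ (fun i => ?_) i
      · rw [Fin.snoc_last, Fin.snoc_last, Function.update_self]
      · rw [Fin.snoc_castSucc, Fin.snoc_castSucc]
        exact Function.update_of_ne (hk2 i (Finset.mem_univ i)) _ _
    rw [e1, e2]

/-- Sets definable in `(ℕ; S, ⊥)` are arithmetical. -/
theorem ari (hP : Pure L) (φ : L.Formula (Fin 1)) :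
    Set.Definable (∅ : Set ℕ) arithLang {v : Fin 1 → ℕ | φ.Realize (fun _ => v 0)} := by
  have h1 : D1 arithLang (fun x => φ.Realize (fun _ => x)) := by
    refine (trans_ari hP φ 0 (fun i => i.elim0)).congr fun v => ?_
    unfold Formula.Realize
    exact iff_of_eq (congrArg _ (Subsingleton.elim _ _))
  exact h1.definable

end Pool.Agent.DSC
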