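import Pool.Agent.Helper60_DSC.Defs

/-!
# Definable relations of `(ℕ; S, ⊥)`: the Ehrenfeucht game

Locally indistinguishable tuples satisfy the same formulas with a bounded number of quantifiers.
-/

set_option autoImplicit false

namespace Pool.Agent.DSC

open FirstOrder FirstOrder.Language

/-- equal or twins -/
def Clo (K x y : ℕ) : Prop := x = y ∨ Twn K x y

theorem Twn.symm {K x y : ℕ} (h : Twn K x y) : Twn K y x :=
  ⟨h.2.1, h.1, fun j hj => ⟨(h.2.2 j hj).1.symm, (h.2.2 j hj).2.symm⟩⟩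

theorem Twn.trans {K x y z : ℕ} (h : Twn K x y) (h' : Twn K y z) : Twn K x z :=
  ⟨h.1, h'.2.1, fun j hj => ⟨(h.2.2 j hj).1.trans (h'.2.2 j hj).1,
    (h.2.2 j hj).2.trans (h'.2.2 j hj).2⟩⟩

theorem Twn.mono {K K' x y : ℕ} (h : Twn K x y) (hK : K' ≤ K) : Twn K' x y :=
  ⟨by have := h.1; omega, by have := h.2.1; omega, fun j hj => h.2.2 j (by omega)⟩

theorem Clo.symm {K x y : ℕ} (h : Clo K x y) : Clo K y x := by
  rcases h with h | h
  · exact Or.inl h.symm
  · exact Or.inr h.symm

theorem Clo.trans {K x y z : ℕ} (h : Clo K x y) (h' : Clo K y z) : Clo K x z := by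
  rcases h with rfl | h
  · exact h'
  · rcases h' with rfl | h'
    · exact Or.inr h
    · exact Or.inr (h.trans h')

theorem Clo.mono {K K' x y : ℕ} (h : Clo K x y) (hK : K' ≤ K) : Clo K' x y := by
  rcases h with h | h
  · exact Or.inl h
  · exact Or.inr (h.mono hK)

/-- shifts of twins -/
theorem Clo.shift {K s x y u u' : ℕ} (h : Clo (K + s) x y) (h1 : x ≤ u + s) (h2 : u ≤ x + s)
    (h3 : u' + x = u + y) : Clo K u u' := by
  rcases h with rfl | h
  · exact Or.inl (by omega)
  · obtain ⟨h4, h5, h6⟩ := h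
    refine Or.inr ⟨by omega, by omega, fun j hj => ⟨?_, ?_⟩⟩
    · rcases Nat.le_total x (u + j) with h7 | h7
      · have h8 := (h6 (u + j - x) (by omega)).1
        have e1 : x + (u + j - x) = u + j := by omega
        have e2 : y + (u + j - x) = u' + j := by omega
        rwa [e1, e2] at h8
      · have h8 := (h6 (x - (u + j)) (by omega)).2
        have e1 : x - (x - (u + j)) = u + j := by omega
        have e2 : y - (x - (u + j)) = u' + j := by omega
        rwa [e1, e2] at h8
    · rcases Nat.le_total x (u - j) with h7 | h7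
      · have h8 := (h6 (u - j - x) (by omega)).1
        have e1 : x + (u - j - x) = u - j := by omega
        have e2 : y + (u - j - x) = u' - j := by omega
        rwa [e1, e2] at h8
      · have h8 := (h6 (x - (u - j)) (by omega)).2
        have e1 : x - (x - (u - j)) = u - j := by omega
        have e2 : y - (x - (u - j)) = u' - j := by omega
        rwa [e1, e2] at h8

theorem Eqv.symm {K : ℕ} {ι : Type} {x y : ι → ℕ} (h : Eqv K x y) : Eqv K y x :=
  ⟨fun i => Clo.symm (h.1 i), fun i j t ht => (h.2 i j t ht).symm⟩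

theorem Eqv.mono {K K' : ℕ} {ι : Type} {x y : ι → ℕ} (h : Eqv K x y) (hK : K' ≤ K) :
    Eqv K' x y :=
  ⟨fun i => Clo.mono (h.1 i) hK, fun i j t ht => h.2 i j t (by omega)⟩

/-- one step of the game -/
theorem ext {ι : Type} [Finite ι] {K : ℕ} {x y : ι → ℕ} (h : Eqv (3 * K) x y) (z : ℕ) :
    ∃ z', Clo K z z' ∧ (∀ i t, t ≤ K → (x i + t = z ↔ y i + t = z')) ∧
      ∀ i t, t ≤ K → (z + t = x i ↔ z' + t = y i) := by
  by_cases hz : ∃ i, x i ≤ z + 2 * K ∧ z ≤ x i + 2 * K
  · obtain ⟨i, h1, h2⟩ := hz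
    have hle : x i ≤ z + y i := by
      rcases h.1 i with h3 | h3
      · omega
      · have := h3.2.1
        omega
    obtain ⟨z', hz'⟩ : ∃ z', z' + x i = z + y i := ⟨z + y i - x i, by omega⟩
    refine ⟨z', ?_, ?_, ?_⟩
    · have h3 : Clo (K + 2 * K) (x i) (y i) := Clo.mono (h.1 i) (by omega)
      exact h3.shift h1 h2 hz'
    · intro j t ht
      by_cases h3 : z ≤ t + x i
      · have h4 := h.2 j i (t + x i - z) (by omega)
        omega
      · have h4 := h.2 i j (z - (t + x i)) (by omega)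
        omega
    · intro j t ht
      by_cases h3 : z + t ≤ x i
      · have h4 := h.2 j i (x i - (z + t)) (by omega)
        omega
      · have h4 := h.2 i j (z + t - x i) (by omega)
        omega
  · push Not at hz
    by_contra hc
    push Not at hc
    have hC : ∀ u, Clo K z u → ∃ i, y i ≤ u + K ∧ u ≤ y i + K := by
      intro u hu
      by_contra hcu
      push Not at hcu
      have h1 : ∀ i t, t ≤ K → (x i + t = z ↔ y i + t = u) := by
        intro i t ht
        have h2 := hz i
        have h3 := hcu i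
        constructor
        · intro h4
          have := h2 (by omega)
          omega
        · intro h4
          have := h3 (by omega)
          omega
      obtain ⟨i, t, ht, h4⟩ := hc u hu h1
      have h2 := hz i
      have h3 := hcu i
      rcases h4 with ⟨h5, h6⟩ | ⟨h5, h6⟩
      · have := h2 (by omega)
        omega
      · have := h3 (by omega)
        omega
    have hfin : {u | Clo K z u}.Finite := by
      have h1 : (⋃ i : ι, Set.Icc (y i - K) (y i + K)).Finite :=
        Set.finite_iUnion fun i => Set.finite_Icc _ _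
      refine h1.subset fun u hu => ?_
      obtain ⟨i, h2, h3⟩ := hC u hu
      exact Set.mem_iUnion.2 ⟨i, by omega, h3⟩
    have hF : Finite {u // Clo K z u} := hfin
    have hg : ∀ u : {u // Clo K z u}, ∃ (u' : {u // Clo K z u}) (i : ι),
        u'.1 + y i = u.1 + x i ∧ x i ≤ u'.1 + K ∧ u'.1 ≤ x i + K := by
      rintro ⟨u, hu⟩
      obtain ⟨i, h2, h3⟩ := hC u hu
      have hle : y i ≤ u + x i := by
        rcases h.1 i with h4 | h4
        · omega
        · have := h4.1
          omega
      have h5 : Clo (K + K) (y i) (x i) := Clo.mono (Clo.symm (h.1 i)) (by omega)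
      have h6 : Clo K u (u + x i - y i) := h5.shift h2 h3 (by omega)
      exact ⟨⟨u + x i - y i, hu.trans h6⟩, i, by simp only; omega, by simp only; omega,
        by simp only; omega⟩
    choose g idx hg using hg
    have hinj : Function.Injective g := by
      intro u v huv
      have h1 := hg u
      have h2 := hg v
      rw [← huv] at h2
      apply Subtype.ext
      rcases Nat.le_total (x (idx u)) (x (idx v)) with h3 | h3
      · have h4 := h.2 (idx u) (idx v) (x (idx v) - x (idx u)) (by omega)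
        omega
      · have h4 := h.2 (idx v) (idx u) (x (idx u) - x (idx v)) (by omega)
        omega
    obtain ⟨u, hu⟩ := (Finite.injective_iff_surjective.1 hinj) ⟨z, Or.inl rfl⟩
    have h1 := hg u
    rw [hu] at h1
    have h2 := hz (idx u)
    have h3 := h2 (by have := h1.2.1; simp only at this; omega)
    have h4 := h1.2.2
    simp only at h4
    omega

theorem snocE {α : Type} [Finite α] {n K : ℕ} {v w : α → ℕ} {xs ys : Fin n → ℕ}
    (h : Eqv (3 * K) (Sum.elim v xs) (Sum.elim w ys)) (z : ℕ) :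
    ∃ z', Eqv K (Sum.elim v (Fin.snoc (α := fun _ => ℕ) xs z))
      (Sum.elim w (Fin.snoc (α := fun _ => ℕ) ys z')) := by
  obtain ⟨z', h1, h2, h3⟩ := ext h z
  have key : ∀ k : α ⊕ Fin (n + 1),
      (∃ i, Sum.elim v (Fin.snoc (α := fun _ => ℕ) xs z) k = Sum.elim v xs i ∧
        Sum.elim w (Fin.snoc (α := fun _ => ℕ) ys z') k = Sum.elim w ys i) ∨
      (Sum.elim v (Fin.snoc (α := fun _ => ℕ) xs z) k = z ∧
        Sum.elim w (Fin.snoc (α := fun _ => ℕ) ys z') k = z') := by
    rintro (k | k)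
    · exact Or.inl ⟨Sum.inl k, rfl, rfl⟩
    · refine Fin.lastCases ?_ (fun i => ?_) k
      · right
        simp only [Sum.elim_inr, Fin.snoc_last, and_self]
      · left
        refine ⟨Sum.inr i, ?_, ?_⟩
        · simp only [Sum.elim_inr, Fin.snoc_castSucc]
        · simp only [Sum.elim_inr, Fin.snoc_castSucc]
  refine ⟨z', ?_, ?_⟩
  · intro k
    rcases key k with ⟨i, e1, e2⟩ | ⟨e1, e2⟩
    · rw [e1, e2]
      exact Clo.mono (h.1 i) (by omega)
    · rw [e1, e2]
      exact h1
  · intro k l t ht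
    rcases key k with ⟨i, e1, e2⟩ | ⟨e1, e2⟩ <;> rcases key l with ⟨j, e3, e4⟩ | ⟨e3, e4⟩ <;>
      rw [e1, e2, e3, e4]
    · exact h.2 i j t (by omega)
    · exact h2 i t ht
    · exact h3 j t ht
    · omega

theorem dvd_pf {a b : ℕ} (ha : 0 < a) (hb : 0 < b) (h : a.primeFactors = b.primeFactors)
    {p : ℕ} (hp : p.Prime) : p ∣ a ↔ p ∣ b := by
  have h1 : p ∈ a.primeFactors ↔ p ∈ b.primeFactors := by rw [h]
  rw [Nat.mem_primeFactors, Nat.mem_primeFactors] at h1
  constructor
  · intro h2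
    exact (h1.1 ⟨hp, h2, by omega⟩).2.1
  · intro h2
    exact (h1.2 ⟨hp, h2, by omega⟩).2.1

theorem Clo.dvd {K c x y : ℕ} (h : Clo K x y) (hc : c ≤ K) {p : ℕ} (hp : p.Prime) :
    p ∣ x + c ↔ p ∣ y + c := by
  rcases h with rfl | h
  · exact Iff.rfl
  · have h1 := h.1
    have h2 := h.2.1
    exact dvd_pf (by omega) (by omega) (h.2.2 c hc).1 hp

theorem cop_iff {a b a' b' : ℕ} (h1 : ∀ p : ℕ, p.Prime → (p ∣ a ↔ p ∣ a'))
    (h2 : ∀ p : ℕ, p.Prime → (p ∣ b ↔ p ∣ b')) : Nat.Coprime a b ↔ Nat.Coprime a' b' := by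
  rw [← not_iff_not, Nat.Prime.not_coprime_iff_dvd, Nat.Prime.not_coprime_iff_dvd]
  constructor
  · rintro ⟨p, hp, h3, h4⟩
    exact ⟨p, hp, (h1 p hp).1 h3, (h2 p hp).1 h4⟩
  · rintro ⟨p, hp, h3, h4⟩
    exact ⟨p, hp, (h1 p hp).2 h3, (h2 p hp).2 h4⟩

/-- The language has only unary function symbols, all interpreted by the successor, and only binary
relation symbols, all interpreted by coprimality. -/
structure PureL (L : FirstOrder.Language.{0, 0}) [L.Structure ℕ] : Prop where
  f1 : ∀ (n : ℕ) (_ : L.Functions n), n = 1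
  r2 : ∀ (n : ℕ) (_ : L.Relations n), n = 2
  hs : ∀ (f : L.Functions 1) (v : Fin 1 → ℕ), Structure.funMap f v = v 0 + 1
  hr : ∀ (r : L.Relations 2) (v : Fin 2 → ℕ), Structure.RelMap r v ↔ Nat.Coprime (v 0) (v 1)

variable {L : FirstOrder.Language.{0, 0}} [L.Structure ℕ]

theorem term_eq (hP : PureL L) {α : Type} (t : L.Term α) :
    ∃ (i : α) (c : ℕ), ∀ v : α → ℕ, t.realize v = v i + c := by
  induction t with
  | var i => exact ⟨i, 0, fun v => rfl⟩
  | @func n f ts ih =>
    obtain rfl := hP.f1 n f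
    obtain ⟨i, c, h⟩ := ih 0
    refine ⟨i, c + 1, fun v => ?_⟩
    rw [Term.realize_func, hP.hs, h]
    rfl

/-- Locally indistinguishable tuples satisfy the same formulas. -/
theorem game (hP : PureL L) {α : Type} [Finite α] {n : ℕ} (φ : L.BoundedFormula α n) :
    ∃ K : ℕ, ∀ (v w : α → ℕ) (xs ys : Fin n → ℕ), Eqv K (Sum.elim v xs) (Sum.elim w ys) →
      (φ.Realize v xs ↔ φ.Realize w ys) := by
  induction φ with
  | falsum => exact ⟨0, fun v w xs ys _ => Iff.rfl⟩
  | equal t₁ t₂ =>
    obtain ⟨i, a, h1⟩ := term_eq hP t₁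
    obtain ⟨j, b, h2⟩ := term_eq hP t₂
    refine ⟨a + b, fun v w xs ys h => ?_⟩
    show t₁.realize (Sum.elim v xs) = t₂.realize (Sum.elim v xs) ↔
      t₁.realize (Sum.elim w ys) = t₂.realize (Sum.elim w ys)
    rw [h1, h2, h1, h2]
    rcases Nat.le_total a b with hab | hab
    · have h3 := h.2 j i (b - a) (by omega)
      omega
    · have h3 := h.2 i j (a - b) (by omega)
      omega
  | @rel n m R ts =>
    obtain rfl := hP.r2 m R
    obtain ⟨i, a, h1⟩ := term_eq hP (ts 0)
    obtain ⟨j, b, h2⟩ := term_eq hP (ts 1)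
    refine ⟨a + b, fun v w xs ys h => ?_⟩
    show Structure.RelMap R (fun k => (ts k).realize (Sum.elim v xs)) ↔
      Structure.RelMap R (fun k => (ts k).realize (Sum.elim w ys))
    rw [hP.hr, hP.hr, h1, h2, h1, h2]
    exact cop_iff (fun p hp => Clo.dvd (h.1 i) (by omega) hp)
      (fun p hp => Clo.dvd (h.1 j) (by omega) hp)
  | imp φ₁ φ₂ ih₁ ih₂ =>
    obtain ⟨K₁, h₁⟩ := ih₁
    obtain ⟨K₂, h₂⟩ := ih₂
    refine ⟨K₁ + K₂, fun v w xs ys h => ?_⟩
    rw [BoundedFormula.realize_imp, BoundedFormula.realize_imp,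
      h₁ v w xs ys (h.mono (by omega)), h₂ v w xs ys (h.mono (by omega))]
  | @all n φ ih =>
    obtain ⟨K, hK⟩ := ih
    refine ⟨3 * K, fun v w xs ys h => ?_⟩
    rw [BoundedFormula.realize_all, BoundedFormula.realize_all]
    constructor
    · intro h1 z'
      obtain ⟨z, hz⟩ := snocE h.symm z'
      exact (hK _ _ _ _ hz).2 (h1 z)
    · intro h1 z
      obtain ⟨z', hz⟩ := snocE h z
      exact (hK _ _ _ _ hz).2 (h1 z')

/-- Relations definable without parameters in `(ℕ; S, ⊥)` are invariant under local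
indistinguishability. -/
theorem formula_eqv (hP : PureL L) {r : ℕ} (φ : L.Formula (Fin r)) :
    ∃ K : ℕ, ∀ x y : Fin r → ℕ, Eqv K x y → φ.Realize x → φ.Realize y := by
  obtain ⟨K, hK⟩ := game hP φ
  refine ⟨K, fun x y h hx => ?_⟩
  unfold Formula.Realize at hx ⊢
  refine (hK x y _ _ ?_).1 hx
  refine ⟨?_, ?_⟩
  · rintro (i | i)
    · exact h.1 i
    · exact i.elim0
  · rintro (i | i) (j | j) t ht
    · exact h.2 i j t ht
    · exact j.elim0
    · exact i.elim0
    · exact i.elim0

end Pool.Agent.DSC
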