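import Pool.Agent.Helper2_SQR.Def
import Pool.Agent.Helper60_DSC.Game

/-!
# Definable relations of `(ℕ; S, ⊥)`: arithmetical invariant relations are definable
-/

set_option autoImplicit false

namespace Pool.Agent.DSC

open FirstOrder FirstOrder.Language Pool.Agent.SqDef Pool.Agent.SQR

variable {L : FirstOrder.Language.{0, 0}} [L.Structure ℕ]

theorem D_fin {ι : Type} [Fintype ι] {P : ι → (ℕ → ℕ) → Prop} (h : ∀ i, D L (P i)) :
    D L (fun v => ∀ i, P i v) := by
  classical
  have key : ∀ s : Finset ι, D L (fun v => ∀ i ∈ s, P i v) := by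
    intro s
    induction s using Finset.induction_on with
    | empty => exact (D.const True).congr fun v => by simp
    | insert a s ha ih =>
      refine ((h a).and ih).congr fun v => ?_
      constructor
      · rintro ⟨h1, h2⟩ i hi
        rcases Finset.mem_insert.1 hi with rfl | hi
        · exact h1
        · exact h2 i hi
      · intro h1
        exact ⟨h1 a (Finset.mem_insert_self a s), fun i hi => h1 i (Finset.mem_insert_of_mem hi)⟩
  exact (key Finset.univ).congr fun v => by simp

theorem pf_eq {a b : ℕ} (ha : 0 < a) (hb : 0 < b) (h : ∀ p : ℕ, p.Prime → (p ∣ a ↔ p ∣ b)) :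
    a.primeFactors = b.primeFactors := by
  ext p
  rw [Nat.mem_primeFactors, Nat.mem_primeFactors]
  constructor
  · rintro ⟨hp, h1, _⟩
    exact ⟨hp, (h p hp).1 h1, by omega⟩
  · rintro ⟨hp, h1, _⟩
    exact ⟨hp, (h p hp).2 h1, by omega⟩

theorem same_twn {K a u : ℕ} (ha : 1 ≤ a) (hu : 1 ≤ u) (h : Same (2 * K) a u) :
    Twn K (a + K) (u + K) := by
  refine ⟨by omega, by omega, fun j hj => ⟨?_, ?_⟩⟩
  · refine pf_eq (by omega) (by omega) fun p hp => ?_
    have h1 := h (K + j) (by omega) p hp
    rw [← Nat.add_assoc, ← Nat.add_assoc] at h1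
    exact h1
  · refine pf_eq (by omega) (by omega) fun p hp => ?_
    have h1 := h (K - j) (by omega) p hp
    have e1 : a + (K - j) = a + K - j := by omega
    have e2 : u + (K - j) = u + K - j := by omega
    rw [e1, e2] at h1
    exact h1

theorem twn_same {K x y : ℕ} (h : Twn K x y) : Same (2 * K) (x - K) (y - K) := by
  obtain ⟨h1, h2, h3⟩ := h
  intro j hj p hp
  rcases Nat.le_total K j with hK | hK
  · have h4 := (h3 (j - K) (by omega)).1
    have e1 : x + (j - K) = x - K + j := by omega
    have e2 : y + (j - K) = y - K + j := by omega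
    rw [e1, e2] at h4
    exact dvd_pf (by omega) (by omega) h4 hp
  · have h4 := (h3 (K - j) (by omega)).2
    have e1 : x - (K - j) = x - K + j := by omega
    have e2 : y - (K - j) = y - K + j := by omega
    rw [e1, e2] at h4
    exact dvd_pf (by omega) (by omega) h4 hp

theorem small_def (σ : Sig L) (n : ℕ) :
    D L (fun v => ∃ m, m < n ∧ v 1 = m ∧ v 0 = cd (m + 1)) := by
  induction n with
  | zero => exact (D.const False).congr fun v => by simp
  | succ n ih =>
    refine (ih.or ((D.isConst σ 1 n).and (D.isConst σ 0 (cd (n + 1))))).congr fun v => ?_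
    constructor
    · rintro (⟨m, h1, h2, h3⟩ | ⟨h1, h2⟩)
      · exact ⟨m, by omega, h2, h3⟩
      · exact ⟨n, by omega, h1, h2⟩
    · rintro ⟨m, h1, h2, h3⟩
      rcases Nat.lt_or_ge m n with h4 | h4
      · exact Or.inl ⟨m, h4, h2, h3⟩
      · have : m = n := by omega
        subst this
        exact Or.inr ⟨h2, h3⟩

/-- codes of numbers which are equal to `y` or twins of `y` -/
theorem exists_cd (σ : Sig L) (K : ℕ) :
    ∃ Q : ℕ → ℕ → Prop, D2 L Q ∧ ∀ c y, Q c y ↔ ∃ a, c = cd (a + 1) ∧ Clo K a y := by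
  obtain ⟨QS, hQS, hQS'⟩ := exists_same σ (2 * K)
  obtain ⟨T, hT, hT'⟩ := E2.toD σ (E2_shift σ (K + 1))
  refine ⟨fun c y => (∃ u c', y = u + K ∧ ¬ u = 0 ∧ IsCode c ∧ IsCode c' ∧ QS c' u ∧ T c' c) ∨
    ∃ m, m < K + 1 ∧ y = m ∧ c = cd (m + 1), ?_, ?_⟩
  · have h1 : D L (fun v => v 1 = v 2 + K) :=
      D2.at σ (R := fun x y => x = y) (D.eq 0 1) 1 0 2 K
    have h2 : D L (fun v => ¬ v 2 = 0) := (D.isConst σ 2 0).not
    have h3 : D L (fun v => ∃ u c', v 1 = u + K ∧ ¬ u = 0 ∧ IsCode (v 0) ∧ IsCode c' ∧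
        QS c' u ∧ T c' (v 0)) := by
      refine (((h1.and (h2.and (((D1_isCode σ).at σ 0 0).and (((D1_isCode σ).at σ 3 0).and
        ((hQS.at σ 3 0 2 0).and (hT.at σ 3 0 0 0)))))).ex 3).ex 2).congr fun v => ?_
      simp
    exact (h3.or (small_def σ (K + 1))).congr fun v => Iff.rfl
  · intro c y
    constructor
    · rintro (⟨u, c', h1, h2, ⟨b, hb, rfl⟩, ⟨a, ha, rfl⟩, h3, h4⟩ | ⟨m, h1, h2, h3⟩)
      · rw [hQS' a u ha] at h3
        rw [hT' a b ha hb] at h4
        refine ⟨a + K, by rw [h4]; rfl, Or.inr ?_⟩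
        rw [h1]
        exact same_twn ha (by omega) h3
      · exact ⟨m, h3, Or.inl h2.symm⟩
    · rintro ⟨a, rfl, h | h⟩
      · subst h
        rcases Nat.lt_or_ge K a with h1 | h1
        · left
          refine ⟨a - K, cd (a - K), by omega, by omega, ⟨a + 1, by omega, rfl⟩,
            ⟨a - K, by omega, rfl⟩, (hQS' _ _ (by omega)).2 fun j _ p _ => Iff.rfl,
            (hT' _ _ (by omega) (by omega)).2 (by omega)⟩
        · right
          exact ⟨a, by omega, rfl, rfl⟩
      · left
        have h1 := h.1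
        have h2 := h.2.1
        refine ⟨y - K, cd (a - K), by omega, by omega, ⟨a + 1, by omega, rfl⟩,
          ⟨a - K, by omega, rfl⟩, (hQS' _ _ (by omega)).2 (twn_same h),
          (hT' _ _ (by omega) (by omega)).2 (by omega)⟩

/-- **Arithmetical relations which are invariant under local indistinguishability are definable.** -/
theorem codr (σ : Sig L) (r K : ℕ) (R : Set (Fin r → ℕ))
    (hR : Set.Definable (∅ : Set ℕ) arithLang R) (hK : ∀ x ∈ R, ∀ y, Eqv K x y → y ∈ R) :
    Set.Definable (∅ : Set ℕ) L R := by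
  obtain ⟨Q, hQ, hQ'⟩ := exists_cd σ K
  obtain ⟨P, hP, hP'⟩ := arith_EDr σ hR
  have hTe : ∀ t : Fin (K + 1), ∃ T : ℕ → ℕ → Prop, D2 L T ∧
      ∀ a b, 1 ≤ a → 1 ≤ b → (T (cd a) (cd b) ↔ b = a + t) := fun t => E2.toD σ (E2_shift σ t)
  choose T hT hT' using hTe
  -- places: `v i` for `i < r`, codes at `r + i`, the constant 1 at `2 r`
  have h2 : D L (fun v => ∀ i : Fin r, Q (v (r + i)) (v (0 + i))) := D_forall_lt σ r hQ r 0
  have hp : D L (fun v => ∀ i j : Fin r, ∀ t : Fin (K + 1),
      (v (i : ℕ) + (t : ℕ) = v (j : ℕ) + 0 ↔ T t (v (r + i) + 0) (v (r + j) + 0))) :=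
    D_fin fun i => D_fin fun j => D_fin fun t =>
      (D2.at σ (R := fun x y => x = y) (D.eq 0 1) i t j 0).iff ((hT t).at σ (r + i) 0 (r + j) 0)
  have h3 : D L (fun v => P (fun n => v (if n < r then r + n else 2 * r) + 0)) :=
    hP.sub σ (fun n => if n < r then r + n else 2 * r) (fun _ => 0)
  have h4 := ((D_exs r r ((h2.and (hp.and h3)).setc σ (2 * r) 1)))
  refine D_definable r h4 _ fun v => ?_
  have key : ∀ x : Fin r → ℕ,
      ((∀ i : Fin r, Q (Function.update (blk r r x v) (2 * r) 1 (r + i))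
        (Function.update (blk r r x v) (2 * r) 1 (0 + i))) ∧
      (∀ i j : Fin r, ∀ t : Fin (K + 1),
        (Function.update (blk r r x v) (2 * r) 1 (i : ℕ) + (t : ℕ) =
            Function.update (blk r r x v) (2 * r) 1 (j : ℕ) + 0 ↔
          T t (Function.update (blk r r x v) (2 * r) 1 (r + i) + 0)
            (Function.update (blk r r x v) (2 * r) 1 (r + j) + 0))) ∧
      P (fun n => Function.update (blk r r x v) (2 * r) 1 (if n < r then r + n else 2 * r) + 0)) ↔
      ((∀ i : Fin r, Q (x i) (v i)) ∧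
        (∀ i j : Fin r, ∀ t : Fin (K + 1), (v (i : ℕ) + (t : ℕ) = v (j : ℕ) ↔ T t (x i) (x j))) ∧
        P (fun n => if h : n < r then x ⟨n, h⟩ else 1)) := by
    intro x
    have e0 : ∀ i : Fin r, Function.update (blk r r x v) (2 * r) 1 (i : ℕ) = v i := by
      intro i
      have := i.2
      rw [Function.update_of_ne (by omega), blk, dif_neg (by omega)]
    have e1 : ∀ i : Fin r, Function.update (blk r r x v) (2 * r) 1 (0 + i) = v i := by
      intro i
      rw [zero_add, e0]
    have e2 : ∀ i : Fin r, Function.update (blk r r x v) (2 * r) 1 (r + i) = x i := by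
      intro i
      have := i.2
      rw [Function.update_of_ne (by omega), blk, dif_pos (by omega)]
      congr 1
      ext
      simp
    have e3 : (fun n => Function.update (blk r r x v) (2 * r) 1
        (if n < r then r + n else 2 * r)) = (fun n => if h : n < r then x ⟨n, h⟩ else 1) := by
      funext n
      by_cases hn : n < r
      · rw [if_pos hn, dif_pos hn]
        exact e2 ⟨n, hn⟩
      · rw [if_neg hn, dif_neg hn, Function.update_self]
    simp only [add_zero, e0, e1, e2, e3]
  constructor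
  · rintro ⟨x, hx⟩
    obtain ⟨g1, g2, g3⟩ := (key x).1 hx
    have g4 : ∀ i : Fin r, ∃ a, x i = cd (a + 1) ∧ Clo K a (v i) := fun i => (hQ' _ _).1 (g1 i)
    choose a ha hcl using g4
    have g5 : (fun n => if h : n < r then x ⟨n, h⟩ else 1) =
        (fun n => cd ((fun n => if h : n < r then a ⟨n, h⟩ + 1 else 1) n)) := by
      funext n
      by_cases hn : n < r
      · simp only [dif_pos hn]
        exact ha ⟨n, hn⟩
      · simp only [dif_neg hn]
        rfl
    rw [g5, hP' _ (fun n => by split_ifs <;> omega)] at g3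
    have g6 : (fun i : Fin r => (fun n => if h : n < r then a ⟨n, h⟩ + 1 else 1) (i : ℕ) - 1) =
        a := by
      funext i
      simp
    rw [g6] at g3
    refine hK a g3 _ ⟨hcl, fun i j t ht => ?_⟩
    have g7 := g2 i j ⟨t, by omega⟩
    rw [ha i, ha j, hT' _ _ _ (by omega) (by omega)] at g7
    have g8 : v i + t = v j ↔ a j + 1 = a i + 1 + t := g7
    show a i + t = a j ↔ v i + t = v j
    omega
  · intro g2
    refine ⟨fun i => cd (v i + 1), (key _).2 ⟨fun i => (hQ' _ _).2 ⟨v i, rfl, Or.inl rfl⟩,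
      fun i j t => ?_, ?_⟩⟩
    · rw [hT' _ _ _ (by omega) (by omega)]
      omega
    · have g5 : (fun n => if h : n < r then (fun i : Fin r => cd (v i + 1)) ⟨n, h⟩ else 1) =
          (fun n => cd ((fun n => if n < r then v n + 1 else 1) n)) := by
        funext n
        by_cases hn : n < r
        · simp only [dif_pos hn, if_pos hn]
        · simp only [dif_neg hn, if_neg hn]
          rfl
      rw [g5, hP' _ (fun n => by split_ifs <;> omega)]
      have g6 : (fun i : Fin r => (fun n => if n < r then v n + 1 else 1) (i : ℕ) - 1) =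
          (fun i : Fin r => v i) := by
        funext i
        simp
      change (fun i : Fin r => (fun n => if n < r then v n + 1 else 1) (i : ℕ) - 1) ∈ R
      rw [g6]
      exact g2

end Pool.Agent.DSC
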